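import Mathlib
import Pool.Agent.H307R2.LU

set_option autoImplicit false

/-!
# Partial sums of `∑ u(n) n^{-s}` where `u` is the trivial character twisted at one prime
-/

namespace Q239.PS

open Filter Topology Set

noncomputable section

/-- the principal character twisted by `b` at the prime `p` -/
def tw (k p : ℕ) (b : ℂ) (n : ℕ) : ℂ := if n.Coprime k then b ^ (n.factorization p) else 0

lemma tw_one (k p : ℕ) (b : ℂ) : tw k p b 1 = 1 := by simp [tw]

lemma tw_mul (k p : ℕ) (b : ℂ) (m n : ℕ) (hm : m ≠ 0) (hn : n ≠ 0) :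
    tw k p b (m * n) = tw k p b m * tw k p b n := by
  unfold tw
  have hc : (m * n).Coprime k ↔ m.Coprime k ∧ n.Coprime k := Nat.coprime_mul_iff_left
  rw [Nat.factorization_mul hm hn, Finsupp.add_apply, pow_add]
  by_cases h1 : m.Coprime k
  · by_cases h2 : n.Coprime k
    · rw [if_pos (hc.2 ⟨h1, h2⟩), if_pos h1, if_pos h2]
    · rw [if_neg (fun h => h2 (hc.1 h).2), if_neg h2, mul_zero]
  · rw [if_neg (fun h => h1 (hc.1 h).1), if_neg h1, zero_mul]

lemma tw_prime {k p : ℕ} {b : ℂ} (hb : ‖b‖ = 1) {r : ℕ} (hr : r.Prime) (h : ¬ r ∣ k) :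
    ‖tw k p b r‖ = 1 := by
  unfold tw
  rw [if_pos ((Nat.Prime.coprime_iff_not_dvd hr).2 h), norm_pow, hb, one_pow]

lemma tw_dvd {k p : ℕ} {b : ℂ} {r : ℕ} (hr : r.Prime) (h : r ∣ k) :
    tw k p b r = 0 := by
  unfold tw
  rw [if_neg]
  intro h'
  exact (Nat.Prime.coprime_iff_not_dvd hr).1 h' h

/-- partial sums of the twisted series -/
def U (k p : ℕ) (b : ℂ) (N : ℕ) (s : ℂ) : ℂ := ∑ n ∈ Finset.Icc 1 N, tw k p b n * (n : ℂ) ^ (-s)

/-- partial sums of the principal character mod `q` -/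
def C (q : ℕ) (N : ℕ) (s : ℂ) : ℂ :=
  ∑ n ∈ Finset.Icc 1 N, (1 : DirichletCharacter ℂ q) n * (n : ℂ) ^ (-s)

lemma one_apply_nat (q n : ℕ) :
    (1 : DirichletCharacter ℂ q) n = if n.Coprime q then 1 else 0 := by
  classical
  by_cases h : n.Coprime q
  · rw [if_pos h]
    exact MulChar.one_apply ((ZMod.isUnit_iff_coprime n q).2 h)
  · rw [if_neg h]
    exact MulChar.map_nonunit _ (fun h' => h ((ZMod.isUnit_iff_coprime n q).1 h'))

/-- recursion -/
lemma U_mul {k p : ℕ} (hp : p.Prime) (hpk : ¬ p ∣ k) (b : ℂ) (M : ℕ) (s : ℂ) :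
    U k p b (p * M) s = C (k * p) (p * M) s + b * (p : ℂ) ^ (-s) * U k p b M s := by
  classical
  have hcop : p.Coprime k := (Nat.Prime.coprime_iff_not_dvd hp).2 hpk
  have hsplit : U k p b (p * M) s =
      ∑ n ∈ (Finset.Icc 1 (p * M)).filter (fun n => p ∣ n), tw k p b n * (n : ℂ) ^ (-s) +
      ∑ n ∈ (Finset.Icc 1 (p * M)).filter (fun n => ¬ p ∣ n), tw k p b n * (n : ℂ) ^ (-s) := by
    unfold U
    rw [Finset.sum_filter_add_sum_filter_not]
  have h1 : ∑ n ∈ (Finset.Icc 1 (p * M)).filter (fun n => p ∣ n), tw k p b n * (n : ℂ) ^ (-s) =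
      b * (p : ℂ) ^ (-s) * U k p b M s := by
    have himg : (Finset.Icc 1 (p * M)).filter (fun n => p ∣ n) =
        (Finset.Icc 1 M).image (fun m => p * m) := by
      ext n
      simp only [Finset.mem_filter, Finset.mem_Icc, Finset.mem_image]
      constructor
      · rintro ⟨⟨h1, h2⟩, m, rfl⟩
        refine ⟨m, ⟨?_, ?_⟩, rfl⟩
        · rcases Nat.eq_zero_or_pos m with h | h
          · subst h; simp at h1
          · exact h
        · exact Nat.le_of_mul_le_mul_left h2 hp.pos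
      · rintro ⟨m, ⟨h1, h2⟩, rfl⟩
        refine ⟨⟨?_, Nat.mul_le_mul_left _ h2⟩, dvd_mul_right _ _⟩
        exact Nat.mul_pos hp.pos h1
    rw [himg, Finset.sum_image (fun a _ c _ h => Nat.eq_of_mul_eq_mul_left hp.pos h)]
    unfold U
    rw [Finset.mul_sum]
    refine Finset.sum_congr rfl fun m hm => ?_
    have hm0 : m ≠ 0 := by
      rw [Finset.mem_Icc] at hm; omega
    rw [tw_mul k p b p m hp.ne_zero hm0]
    have h3 : tw k p b p = b := by
      unfold tw
      rw [if_pos hcop, hp.factorization_self, pow_one]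
    rw [h3, Nat.cast_mul, Complex.natCast_mul_natCast_cpow]
    ring
  have h2 : ∑ n ∈ (Finset.Icc 1 (p * M)).filter (fun n => ¬ p ∣ n), tw k p b n * (n : ℂ) ^ (-s) =
      C (k * p) (p * M) s := by
    unfold C
    rw [Finset.sum_filter]
    refine Finset.sum_congr rfl fun n hn => ?_
    rw [one_apply_nat]
    have h3 : n.Coprime (k * p) ↔ n.Coprime k ∧ n.Coprime p := Nat.coprime_mul_iff_right
    have h4 : n.Coprime p ↔ ¬ p ∣ n := by
      rw [Nat.coprime_comm]
      exact Nat.Prime.coprime_iff_not_dvd hp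
    unfold tw
    by_cases h5 : p ∣ n
    · have h8 : ¬ n.Coprime (k * p) := by
        rw [h3, h4]; tauto
      rw [if_neg (not_not.2 h5), if_neg h8, zero_mul]
    · have h6 : n.factorization p = 0 := Nat.factorization_eq_zero_of_not_dvd h5
      by_cases h7 : n.Coprime k
      · have h8 : n.Coprime (k * p) := by
          rw [h3, h4]; tauto
        rw [if_pos h5, if_pos h7, if_pos h8, h6, pow_zero]
      · have h8 : ¬ n.Coprime (k * p) := by
          rw [h3, h4]; tauto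
        rw [if_pos h5, if_neg h7, if_neg h8]
  rw [hsplit, h1, h2]
  ring

lemma U_pow {k p : ℕ} (hp : p.Prime) (hpk : ¬ p ∣ k) (b : ℂ) (J : ℕ) (s : ℂ) :
    U k p b (p ^ J) s =
      ∑ i ∈ Finset.range (J + 1), (b * (p : ℂ) ^ (-s)) ^ i * C (k * p) (p ^ (J - i)) s := by
  induction J with
  | zero =>
    simp [U, C, tw]
  | succ J ih =>
    rw [pow_succ', U_mul hp hpk, ih, Finset.sum_range_succ' _ (J + 1)]
    rw [Finset.mul_sum]
    simp only [pow_zero, one_mul, Nat.sub_zero]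
    rw [add_comm, ← pow_succ' p J]
    congr 1
    refine Finset.sum_congr rfl fun i _ => ?_
    have : J + 1 - (i + 1) = J - i := by omega
    rw [this, pow_succ']
    ring

/-- the density of the integers prime to `q` -/
def dens (q : ℕ) : ℝ := (q.totient : ℝ) / q

lemma dens_pos {q : ℕ} (hq : 0 < q) : 0 < dens q := by
  unfold dens
  have := Nat.totient_pos.2 hq
  positivity

lemma dens_le_one {q : ℕ} (hq : 0 < q) : dens q ≤ 1 := by
  unfold dens
  have h := Nat.totient_le q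
  have hq' : (0 : ℝ) < q := by exact_mod_cast hq
  rw [div_le_one hq']
  exact_mod_cast h

lemma dens_eq_prod {q : ℕ} (hq : 0 < q) :
    ((dens q : ℝ) : ℂ) = ∏ p ∈ q.primeFactors, (1 - (p : ℂ)⁻¹) := by
  have h := Nat.totient_eq_mul_prod_factors q
  have hq' : (q : ℂ) ≠ 0 := by exact_mod_cast hq.ne'
  unfold dens
  push_cast
  have h2 : ((q.totient : ℚ) : ℂ) = ((q * ∏ p ∈ q.primeFactors, (1 - (p : ℚ)⁻¹) : ℚ) : ℂ) := by
    rw [h]
  push_cast at h2
  rw [h2]
  field_simp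

/-- remainder function -/
def Er (q N : ℕ) (t : ℝ) : ℂ :=
  if (N : ℝ) < t then
    (∑ n ∈ Finset.Ioc N ⌊t⌋₊, (1 : DirichletCharacter ℂ q) n) - dens q * ((t : ℂ) - N) else 0

lemma Er_measurable (q N : ℕ) : Measurable (Er q N) := by
  unfold Er
  refine Measurable.ite measurableSet_Ioi ?_ measurable_const
  have h : Measurable (fun m : ℕ => ∑ n ∈ Finset.Ioc N m, (1 : DirichletCharacter ℂ q) n) :=
    measurable_from_nat
  refine (h.comp Nat.measurable_floor).sub ?_
  fun_prop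

lemma Er_norm_le {q : ℕ} [NeZero q] (N : ℕ) (t : ℝ) : ‖Er q N t‖ ≤ q + 1 := by
  classical
  have hq : 0 < q := Nat.pos_of_ne_zero (NeZero.ne q)
  have hqC : (q : ℂ) ≠ 0 := by exact_mod_cast hq.ne'
  unfold Er
  split_ifs with h
  · have ht0 : 0 ≤ t := by
      have : (0 : ℝ) ≤ N := by positivity
      linarith
    have hNf : N ≤ ⌊t⌋₊ := Nat.le_floor h.le
    obtain ⟨m, hm⟩ := Nat.exists_eq_add_of_le hNf
    have hsum : ∑ a : ZMod q, ((1 : DirichletCharacter ℂ q) a - (dens q : ℂ)) = 0 := by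
      rw [Finset.sum_sub_distrib, MulChar.sum_one_eq_card_units]
      rw [ZMod.card_units_eq_totient]
      simp only [Finset.sum_const, Finset.card_univ, ZMod.card, nsmul_eq_mul]
      unfold dens
      push_cast
      field_simp
      ring
    have hnorm : ∀ a : ZMod q, ‖(1 : DirichletCharacter ℂ q) a - (dens q : ℂ)‖ ≤ 1 := by
      intro a
      have h0 := dens_pos hq
      have h1 := dens_le_one hq
      by_cases ha : IsUnit a
      · rw [MulChar.one_apply ha]
        have : (1 : ℂ) - (dens q : ℂ) = ((1 - dens q : ℝ) : ℂ) := by push_cast; ring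
        rw [this, Complex.norm_real, Real.norm_of_nonneg (by linarith)]
        linarith
      · rw [MulChar.map_nonunit _ ha, zero_sub, norm_neg, Complex.norm_real,
          Real.norm_of_nonneg h0.le]
        exact h1
    have h1 := Pool.Agent.H307R2.sum_Ioc_block
      (fun a : ZMod q => (1 : DirichletCharacter ℂ q) a - (dens q : ℂ)) hsum hnorm N m
    rw [← hm] at h1
    have h2 : (∑ n ∈ Finset.Ioc N ⌊t⌋₊, (1 : DirichletCharacter ℂ q) n) -
        dens q * ((t : ℂ) - N) =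
        (∑ n ∈ Finset.Ioc N ⌊t⌋₊, ((1 : DirichletCharacter ℂ q) n - (dens q : ℂ))) -
        ((dens q * (t - ⌊t⌋₊) : ℝ) : ℂ) := by
      rw [Finset.sum_sub_distrib, Finset.sum_const, Nat.card_Ioc, nsmul_eq_mul,
        Nat.cast_sub hNf]
      push_cast
      ring
    rw [h2]
    refine (norm_sub_le _ _).trans (add_le_add h1 ?_)
    have h3 := Nat.floor_le ht0
    have h4 := Nat.lt_floor_add_one t
    have h5 := dens_pos hq
    have h6 := dens_le_one hq
    rw [Complex.norm_real, Real.norm_of_nonneg (mul_nonneg h5.le (by linarith))]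
    nlinarith
  · rw [norm_zero]; positivity

/-- asymptotic formula for the partial sums of the principal character -/
lemma C_eq {q : ℕ} [NeZero q] {N : ℕ} (hN : 1 ≤ N) {s : ℂ} (hs : 1 < s.re) :
    ‖C q N s - (DirichletCharacter.LFunctionTrivChar q s -
      (dens q : ℂ) * (N : ℂ) ^ (1 - s) / (s - 1))‖ ≤ ‖s‖ * ((q + 1) * (N : ℝ) ^ (-s.re)) := by
  have h1 := Pool.Agent.H307R2.LSeries_trunc
    (fun n => (1 : DirichletCharacter ℂ q) n) (fun n => DirichletCharacter.norm_le_one _ _) hN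
    (Er_measurable q N) (Er_norm_le N) (dens q : ℂ) (by
      intro t ht
      unfold Er
      rw [if_pos ht]
      ring) hs
  have h2 : DirichletCharacter.LFunctionTrivChar q s =
      LSeries (fun n => (1 : DirichletCharacter ℂ q) n) s :=
    DirichletCharacter.LFunction_eq_LSeries _ hs
  rw [h2, h1]
  have h3 : C q N s - (∑ n ∈ Finset.Icc 1 N, (1 : DirichletCharacter ℂ q) n * (n : ℂ) ^ (-s) +
      (dens q : ℂ) * (N : ℂ) ^ (1 - s) / (s - 1) + s * Pool.Agent.H307R2.TM N (Er q N) s -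
      (dens q : ℂ) * (N : ℂ) ^ (1 - s) / (s - 1)) = -(s * Pool.Agent.H307R2.TM N (Er q N) s) := by
    unfold C
    ring
  rw [h3, norm_neg, norm_mul]
  refine mul_le_mul_of_nonneg_left ?_ (norm_nonneg _)
  refine (Pool.Agent.H307R2.TM_norm_le hN (Er_norm_le N) (by linarith)).trans ?_
  refine mul_le_mul_of_nonneg_left ?_ (by positivity)
  apply div_le_self (by positivity) hs.le

lemma pow_cpow (p J : ℕ) (z : ℂ) : ((p ^ J : ℕ) : ℂ) ^ z = ((p : ℂ) ^ z) ^ J := by
  induction J with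
  | zero => simp
  | succ J ih =>
    rw [pow_succ, Nat.cast_mul, Complex.natCast_mul_natCast_cpow, ih, pow_succ]

/-- asymptotic formula for the twisted partial sums at prime powers -/
lemma U_eq {k p : ℕ} [NeZero (k * p)] (hp : p.Prime) (hpk : ¬ p ∣ k) {b : ℂ} (hb : ‖b‖ = 1)
    (J : ℕ) {s : ℂ} (hs : 1 < s.re) :
    ‖U k p b (p ^ J) s - (DirichletCharacter.LFunctionTrivChar (k * p) s *
      ∑ i ∈ Finset.range (J + 1), (b * (p : ℂ) ^ (-s)) ^ i -
      (dens (k * p) : ℂ) / (s - 1) * ((p : ℂ) ^ (1 - s)) ^ J *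
        ∑ i ∈ Finset.range (J + 1), (b / p) ^ i)‖ ≤
      ‖s‖ * ((k * p : ℕ) + 1) * ((J + 1) * (1 / 2 : ℝ) ^ J) := by
  have hp0 : (p : ℂ) ≠ 0 := by exact_mod_cast hp.ne_zero
  have hpr : (0 : ℝ) < p := by exact_mod_cast hp.pos
  rw [U_pow hp hpk]
  have h1 : ∑ i ∈ Finset.range (J + 1), (b * (p : ℂ) ^ (-s)) ^ i * C (k * p) (p ^ (J - i)) s -
      (DirichletCharacter.LFunctionTrivChar (k * p) s *
      ∑ i ∈ Finset.range (J + 1), (b * (p : ℂ) ^ (-s)) ^ i -
      (dens (k * p) : ℂ) / (s - 1) * ((p : ℂ) ^ (1 - s)) ^ J *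
        ∑ i ∈ Finset.range (J + 1), (b / p) ^ i) =
      ∑ i ∈ Finset.range (J + 1), (b * (p : ℂ) ^ (-s)) ^ i * (C (k * p) (p ^ (J - i)) s -
        (DirichletCharacter.LFunctionTrivChar (k * p) s -
      (dens (k * p) : ℂ) * ((p ^ (J - i) : ℕ) : ℂ) ^ (1 - s) / (s - 1))) := by
    rw [Finset.mul_sum, Finset.mul_sum, ← Finset.sum_sub_distrib, ← Finset.sum_sub_distrib]
    refine Finset.sum_congr rfl fun i hi => ?_
    have hi' : i ≤ J := by
      rw [Finset.mem_range] at hi; omega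
    rw [pow_cpow]
    have h2 : (b * (p : ℂ) ^ (-s)) ^ i * ((p : ℂ) ^ (1 - s)) ^ (J - i) =
        ((p : ℂ) ^ (1 - s)) ^ J * (b / p) ^ i := by
      have h3 : (p : ℂ) ^ (-s) = (p : ℂ) ^ (1 - s) / p := by
        rw [Complex.cpow_sub _ _ hp0, Complex.cpow_one, Complex.cpow_neg]
        field_simp
      have h4 : ((p : ℂ) ^ (1 - s)) ^ J = ((p : ℂ) ^ (1 - s)) ^ i * ((p : ℂ) ^ (1 - s)) ^ (J - i) := by
        rw [← pow_add]; congr 1; omega
      rw [h3, h4, mul_pow, div_pow, div_pow]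
      ring
    linear_combination (-(dens (k * p) : ℂ) / (s - 1)) * h2
  rw [h1]
  refine (norm_sum_le _ _).trans ?_
  have h5 : ∀ i ∈ Finset.range (J + 1), ‖(b * (p : ℂ) ^ (-s)) ^ i * (C (k * p) (p ^ (J - i)) s -
        (DirichletCharacter.LFunctionTrivChar (k * p) s -
      (dens (k * p) : ℂ) * ((p ^ (J - i) : ℕ) : ℂ) ^ (1 - s) / (s - 1)))‖ ≤
      ‖s‖ * ((k * p : ℕ) + 1) * (1 / 2 : ℝ) ^ J := by
    intro i hi
    have hi' : i ≤ J := by
      rw [Finset.mem_range] at hi; omega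
    have h6 := C_eq (q := k * p) (N := p ^ (J - i)) (Nat.pow_pos hp.pos) hs
    rw [norm_mul, norm_pow, norm_mul, hb, one_mul]
    have h7 : ‖(p : ℂ) ^ (-s)‖ = (p : ℝ) ^ (-s.re) := by
      rw [Complex.norm_natCast_cpow_of_pos hp.pos]; simp
    rw [h7]
    have h8 : (((p ^ (J - i) : ℕ) : ℝ)) ^ (-s.re) = ((p : ℝ) ^ (-s.re)) ^ (J - i) := by
      push_cast
      rw [← Real.rpow_natCast, ← Real.rpow_natCast, ← Real.rpow_mul hpr.le, ← Real.rpow_mul hpr.le]
      congr 1
      ring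
    rw [h8] at h6
    have hx0 : 0 ≤ (p : ℝ) ^ (-s.re) := by positivity
    have hx1 : (p : ℝ) ^ (-s.re) ≤ 1 / 2 := by
      have hp2 : (2 : ℝ) ≤ p := by exact_mod_cast hp.two_le
      calc (p : ℝ) ^ (-s.re) ≤ (p : ℝ) ^ (-1 : ℝ) :=
            Real.rpow_le_rpow_of_exponent_le (by linarith) (by linarith)
        _ = ((p : ℝ))⁻¹ := Real.rpow_neg_one _
        _ ≤ 2⁻¹ := inv_anti₀ (by norm_num) hp2
        _ = 1 / 2 := by norm_num
    calc ((p : ℝ) ^ (-s.re)) ^ i * _ ≤ ((p : ℝ) ^ (-s.re)) ^ i *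
          (‖s‖ * (((k * p : ℕ) + 1) * ((p : ℝ) ^ (-s.re)) ^ (J - i))) :=
          mul_le_mul_of_nonneg_left h6 (by positivity)
      _ = ‖s‖ * ((k * p : ℕ) + 1) * (((p : ℝ) ^ (-s.re)) ^ i * ((p : ℝ) ^ (-s.re)) ^ (J - i)) := by
          ring
      _ = ‖s‖ * ((k * p : ℕ) + 1) * ((p : ℝ) ^ (-s.re)) ^ J := by
          rw [← pow_add]; congr 2; omega
      _ ≤ ‖s‖ * ((k * p : ℕ) + 1) * (1 / 2 : ℝ) ^ J := by
          refine mul_le_mul_of_nonneg_left (pow_le_pow_left₀ hx0 hx1 J) (by positivity)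
  refine (Finset.sum_le_sum h5).trans ?_
  rw [Finset.sum_const, Finset.card_range, nsmul_eq_mul]
  push_cast
  apply le_of_eq
  ring

end

end Q239.PS
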