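import Mathlib
import Pool.Agent.Helper352.Kron
import Pool.Agent.H486R2.RedG

set_option autoImplicit false

/-!
# Kronecker's theorem for vertical shifts of a Dirichlet character
-/

namespace Q239.PS

open Filter Topology

/-- Kronecker: there is `t` with `p^{-it}` close to prescribed unit numbers `ω p` for all `p` in a
finite set of primes. -/
lemma exists_t (P : Finset Nat.Primes) (ω : Nat.Primes → ℂ) (hω : ∀ p, ‖ω p‖ = 1) {δ : ℝ}
    (hδ : 0 < δ) :
    ∃ t : ℝ, ∀ p ∈ P, ‖((p : ℕ) : ℂ) ^ (-(t * Complex.I)) - ω p‖ ≤ δ := by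
  classical
  have hpi := Real.pi_pos
  obtain ⟨t, _, ht⟩ := Pool.Agent.Helper352.kronecker (ι := {p // p ∈ P})
    (fun p => Real.log ((p : Nat.Primes) : ℕ) / (2 * Real.pi))
    (fun p => -(ω p).arg / (2 * Real.pi)) (by
      intro c hc
      refine ⟨0, ?_⟩
      have h1 : ∑ i : {p // p ∈ P}, (c i : ℝ) * Real.log ((i : Nat.Primes) : ℕ) = 0 := by
        have h2 : ∑ i : {p // p ∈ P}, (c i : ℝ) * (Real.log ((i : Nat.Primes) : ℕ) / (2 * Real.pi))
          = (∑ i : {p // p ∈ P}, (c i : ℝ) * Real.log ((i : Nat.Primes) : ℕ)) / (2 * Real.pi) := by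
          rw [Finset.sum_div]
          refine Finset.sum_congr rfl fun i _ => ?_
          ring
        rw [h2] at hc
        rcases div_eq_zero_iff.1 hc with h | h
        · exact h
        · exfalso; linarith
      have h3 := Pool.Agent.H486R2.Zneg.log_indep
        (fun i : {p // p ∈ P} => ((i : Nat.Primes) : ℕ))
        (fun i => i.1.2) (fun i j hij => Subtype.ext (Subtype.ext hij)) c h1
      simp [h3]) (δ / (2 * Real.pi)) (by positivity) 0
  refine ⟨t, fun p hp => ?_⟩
  obtain ⟨n, hn⟩ := ht ⟨p, hp⟩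
  simp only at hn
  set e : ℝ := t * (Real.log ((p : Nat.Primes) : ℕ) / (2 * Real.pi)) -
    -(ω p).arg / (2 * Real.pi) - n with he
  have hp0 : ((p : ℕ) : ℂ) ≠ 0 := by exact_mod_cast p.2.ne_zero
  have hωp : ω p = Complex.exp ((ω p).arg * Complex.I) := by
    have := Complex.norm_mul_exp_arg_mul_I (ω p)
    rw [hω p] at this
    simpa using this.symm
  have h1 : ((p : ℕ) : ℂ) ^ (-(t * Complex.I)) =
      ω p * Complex.exp (Complex.I * (-(2 * Real.pi * e) : ℝ)) := by
    have h2 : t * Real.log ((p : ℕ) : ℝ) = 2 * Real.pi * e - (ω p).arg + n * (2 * Real.pi) := by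
      rw [he]
      field_simp
      ring
    have h3 : ((Real.log ((p : ℕ) : ℝ) : ℝ) : ℂ) * -(t * Complex.I) =
      ((ω p).arg * Complex.I + Complex.I * (-(2 * Real.pi * e) : ℝ)) +
        (-n : ℤ) * (2 * Real.pi * Complex.I) := by
      have h4 : ((Real.log ((p : ℕ) : ℝ) : ℝ) : ℂ) * -(t * Complex.I) =
          -((t * Real.log ((p : ℕ) : ℝ) : ℝ) : ℂ) * Complex.I := by
        push_cast; ring
      rw [h4, h2]
      push_cast
      ring
    rw [Complex.cpow_def_of_ne_zero hp0, ← Complex.natCast_log, h3, Complex.exp_add,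
      Complex.exp_int_mul_two_pi_mul_I, mul_one, Complex.exp_add, ← hωp]
  rw [h1]
  have h5 : ω p * Complex.exp (Complex.I * (-(2 * Real.pi * e) : ℝ)) - ω p
      = ω p * (Complex.exp (Complex.I * (-(2 * Real.pi * e) : ℝ)) - 1) := by ring
  rw [h5, norm_mul, hω p, one_mul]
  refine (Real.norm_exp_I_mul_ofReal_sub_one_le).trans ?_
  rw [Real.norm_eq_abs, abs_neg, abs_mul, abs_of_pos (by positivity : (0 : ℝ) < 2 * Real.pi)]
  have h6 : 2 * Real.pi * |e| ≤ 2 * Real.pi * (δ / (2 * Real.pi)) :=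
    mul_le_mul_of_nonneg_left hn.le (by positivity)
  have h7 : 2 * Real.pi * (δ / (2 * Real.pi)) = δ := by field_simp
  linarith

/-- A sequence of shifts turning `χ` into `u` at all natural numbers `n ≥ 1`. -/
lemma exists_shifts {k : ℕ} (χ : DirichletCharacter ℂ k) (u : ℕ → ℂ) (hu1 : u 1 = 1)
    (hmul : ∀ m n, m ≠ 0 → n ≠ 0 → u (m * n) = u m * u n)
    (hup : ∀ p : ℕ, p.Prime → ¬ p ∣ k → ‖u p‖ = 1) (hud : ∀ p : ℕ, p.Prime → p ∣ k → u p = 0) :
    ∃ t : ℕ → ℝ, ∀ n : ℕ, n ≠ 0 →
      Tendsto (fun j => χ n * (n : ℂ) ^ (-(t j * Complex.I))) atTop (𝓝 (u n)) := by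
  classical
  -- target
  set ω : Nat.Primes → ℂ := fun p => if (p : ℕ) ∣ k then 1 else u p * (χ (p : ℕ))⁻¹ with hω
  have hχ : ∀ p : Nat.Primes, ¬ (p : ℕ) ∣ k → ‖χ (p : ℕ)‖ = 1 := by
    intro p hp
    have h1 : IsUnit ((p : ℕ) : ZMod k) := by
      rw [ZMod.isUnit_iff_coprime]
      exact (Nat.Prime.coprime_iff_not_dvd p.2).2 hp
    have h2 := χ.unit_norm_eq_one h1.unit
    simpa using h2
  have hω1 : ∀ p, ‖ω p‖ = 1 := by
    intro p
    simp only [hω]
    split_ifs with h
    · simp
    · rw [norm_mul, norm_inv, hχ p h, hup p p.2 h]; simp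
  choose t ht using fun j : ℕ => exists_t
    ((Finset.univ : Finset (Fin (j + 1))).biUnion fun i =>
      if h : (i : ℕ).Prime then {(⟨i, h⟩ : Nat.Primes)} else ∅) ω hω1
      (δ := 1 / ((j : ℝ) + 1)) (by positivity)
  have hmem : ∀ (p : Nat.Primes) (j : ℕ), (p : ℕ) ≤ j →
      ‖((p : ℕ) : ℂ) ^ (-(t j * Complex.I)) - ω p‖ ≤ 1 / ((j : ℝ) + 1) := by
    intro p j hpj
    apply ht j
    rw [Finset.mem_biUnion]
    refine ⟨⟨p, by omega⟩, Finset.mem_univ _, ?_⟩
    rw [dif_pos p.2]
    exact Finset.mem_singleton_self p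
  refine ⟨t, ?_⟩
  have hprime : ∀ p : ℕ, p.Prime →
      Tendsto (fun j => χ p * (p : ℂ) ^ (-(t j * Complex.I))) atTop (𝓝 (u p)) := by
    intro p hp
    by_cases hd : p ∣ k
    · have h1 : χ p = 0 := by
        apply χ.map_nonunit
        rw [ZMod.isUnit_iff_coprime]
        intro h
        exact (Nat.Prime.coprime_iff_not_dvd hp).1 h hd
      simp only [h1, zero_mul, hud p hp hd]
      exact tendsto_const_nhds
    · have h1 : Tendsto (fun j => (p : ℂ) ^ (-(t j * Complex.I))) atTop (𝓝 (ω ⟨p, hp⟩)) := by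
        rw [tendsto_iff_norm_sub_tendsto_zero]
        refine squeeze_zero' (Eventually.of_forall fun _ => norm_nonneg _) ?_
          tendsto_one_div_add_atTop_nhds_zero_nat
        filter_upwards [eventually_ge_atTop p] with j hj
        exact hmem ⟨p, hp⟩ j hj
      have h2 := h1.const_mul (χ p)
      have h3 : χ p * ω ⟨p, hp⟩ = u p := by
        simp only [hω]
        rw [if_neg hd]
        have : χ (p : ℕ) ≠ 0 := by
          intro h0
          have := hχ ⟨p, hp⟩ hd
          simp only at this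
          rw [h0] at this
          simp at this
        field_simp
      rwa [h3] at h2
  intro n
  induction n using Nat.strong_induction_on with
  | _ n ih =>
    intro hn
    by_cases h1 : n = 1
    · subst h1
      simp [hu1]
    · obtain ⟨m, hm⟩ := Nat.minFac_dvd n
      have hp := Nat.minFac_prime h1
      have hm0 : m ≠ 0 := by
        rintro rfl
        simp at hm
        exact hn hm
      have hmn : m < n := by
        have h2 := hp.two_le
        have : 0 < m := Nat.pos_of_ne_zero hm0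
        nlinarith
      have h2 := (hprime _ hp).mul (ih m hmn hm0)
      rw [← hmul _ _ hp.ne_zero hm0, ← hm] at h2
      refine h2.congr fun j => ?_
      have h3 : χ (n : ZMod k) = χ ((n.minFac : ℕ) : ZMod k) * χ (m : ZMod k) := by
        rw [← map_mul]
        congr 1
        conv_lhs => rw [hm]
        push_cast
        ring
      have h4 : (n : ℂ) ^ (-(t j * Complex.I)) =
          (n.minFac : ℂ) ^ (-(t j * Complex.I)) * (m : ℂ) ^ (-(t j * Complex.I)) := by
        conv_lhs => rw [hm]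
        rw [Nat.cast_mul, Complex.natCast_mul_natCast_cpow]
      rw [h3, h4]
      ring

end Q239.PS
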