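import Mathlib
import Pool.Agent.Q239.PS.Asym

set_option autoImplicit false

/-!
# Comparison of the two main terms
-/

namespace Q239.PS

open Filter Topology Set DirichletCharacter

noncomputable section

/-- the entire function `(s-1) L(s, χ₀)` -/
def F₁ (q : ℕ) [NeZero q] : ℂ → ℂ := LFunctionTrivChar₁ q

lemma F₁_one {q : ℕ} [NeZero q] : F₁ q 1 = (dens q : ℂ) := by
  have hq : 0 < q := Nat.pos_of_ne_zero (NeZero.ne q)
  rw [dens_eq_prod hq]
  unfold F₁ LFunctionTrivChar₁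
  simp only [Function.update_self]

lemma F₁_ne {q : ℕ} [NeZero q] {s : ℂ} (hs : s ≠ 1) : F₁ q s = (s - 1) * LFunctionTrivChar q s := by
  unfold F₁ LFunctionTrivChar₁
  rw [Function.update_of_ne hs]

/-- `F₁` is real on the real half line `x ≥ 1` -/
lemma F₁_im {q : ℕ} [NeZero q] {x : ℝ} (hx : 1 ≤ x) : (F₁ q (x : ℂ)).im = 0 := by
  rcases eq_or_lt_of_le hx with h | h
  · rw [← h]
    push_cast
    rw [F₁_one]
    simp
  · have hx1 : (x : ℂ) ≠ 1 := by
      intro h'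
      have : x = 1 := by exact_mod_cast h'
      linarith
    rw [F₁_ne hx1]
    have h2 : LFunctionTrivChar q (x : ℂ) =
        LSeries (fun n => (1 : DirichletCharacter ℂ q) n) (x : ℂ) :=
      DirichletCharacter.LFunction_eq_LSeries _ (by simpa using h)
    rw [h2]
    have h3 : LSeries (fun n => (1 : DirichletCharacter ℂ q) n) (x : ℂ) =
        ((∑' n : ℕ, (if n = 0 then 0 else (if n.Coprime q then 1 else 0) / (n : ℝ) ^ x) : ℝ) : ℂ) := by
      rw [Complex.ofReal_tsum]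
      unfold LSeries
      refine tsum_congr fun n => ?_
      rw [LSeries.term_def]
      split_ifs with h4 h5
      · simp
      · rw [one_apply_nat, if_pos h5]
        push_cast
        rw [Complex.ofReal_cpow (by positivity)]
        simp
      · rw [one_apply_nat, if_neg h5]
        simp
    rw [h3]
    have h4 : ((x : ℂ) - 1) = ((x - 1 : ℝ) : ℂ) := by push_cast; ring
    rw [h4, ← Complex.ofReal_mul]
    exact Complex.ofReal_im _

lemma F₁_diff (q : ℕ) [NeZero q] : Differentiable ℂ (F₁ q) := differentiable_LFunctionTrivChar₁ q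

lemma F₁_deriv_im (q : ℕ) [NeZero q] : (deriv (F₁ q) 1).im = 0 := by
  have h1 : HasDerivAt (F₁ q) (deriv (F₁ q) 1) ((1 : ℝ) : ℂ) := by
    push_cast
    exact (F₁_diff q 1).hasDerivAt
  have h2 : HasDerivAt (fun x : ℝ => F₁ q (x : ℂ)) (deriv (F₁ q) 1) (1 : ℝ) := h1.comp_ofReal
  have h3 : HasDerivAt (fun x : ℝ => (F₁ q (x : ℂ)).im) (deriv (F₁ q) 1).im (1 : ℝ) := by
    have := Complex.imCLM.hasFDerivAt.comp_hasDerivAt (1 : ℝ) h2
    simpa [Function.comp_def] using this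
  have h4 : HasDerivWithinAt (fun x : ℝ => (F₁ q (x : ℂ)).im) (deriv (F₁ q) 1).im (Ici 1) 1 :=
    h3.hasDerivWithinAt
  have h5 : HasDerivWithinAt (fun x : ℝ => (F₁ q (x : ℂ)).im) 0 (Ici 1) 1 := by
    refine (hasDerivWithinAt_const (1 : ℝ) (Ici 1) (0 : ℝ)).congr ?_ ?_
    · intro x hx
      exact F₁_im hx
    · exact F₁_im le_rfl
  exact (uniqueDiffOn_Ici (1 : ℝ) 1 (by simp)).eq_deriv _ h4 h5

/-- the difference of the squared main terms -/
def Df (q p : ℕ) [NeZero q] (τ : ℝ) : ℝ :=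
  dens q ^ 2 * (1 + 2 * (p : ℝ)⁻¹ * Real.sin (τ * Real.log p) + ((p : ℝ)⁻¹) ^ 2) -
    ‖F₁ q (1 + Complex.I * τ)‖ ^ 2 * (1 + ((p : ℝ)⁻¹) ^ 2)

lemma Df_zero (q p : ℕ) [NeZero q] : Df q p 0 = 0 := by
  unfold Df
  simp only [zero_mul, Real.sin_zero, mul_zero, add_zero, Complex.ofReal_zero]
  rw [F₁_one, Complex.norm_real, Real.norm_eq_abs, sq_abs]
  ring

lemma Df_deriv (q p : ℕ) [NeZero q] :
    HasDerivAt (Df q p) (dens q ^ 2 * (2 * (p : ℝ)⁻¹ * Real.log p)) 0 := by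
  have h1 : HasDerivAt (fun τ : ℝ => F₁ q (1 + Complex.I * τ)) (deriv (F₁ q) 1 * Complex.I) 0 := by
    have e1 : HasDerivAt (F₁ q) (deriv (F₁ q) 1) (1 + Complex.I * (0 : ℝ)) := by
      simp only [Complex.ofReal_zero, mul_zero, add_zero]
      exact (F₁_diff q 1).hasDerivAt
    have e2 : HasDerivAt (fun τ : ℝ => 1 + Complex.I * (τ : ℂ)) Complex.I 0 := by
      have := ((Complex.ofRealCLM.hasDerivAt (x := (0 : ℝ))).const_mul Complex.I).const_add 1
      simpa using this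
    exact e1.comp 0 e2
  have h2 := h1.norm_sq
  have h3 : inner ℝ (F₁ q (1 + Complex.I * (0 : ℝ))) (deriv (F₁ q) 1 * Complex.I) = 0 := by
    simp only [Complex.ofReal_zero, mul_zero, add_zero]
    rw [F₁_one, Complex.inner]
    have h4 := F₁_deriv_im q
    simp [h4]
  rw [h3, mul_zero] at h2
  have h5 : HasDerivAt (fun τ : ℝ => Real.sin (τ * Real.log p)) (Real.log p) 0 := by
    have e1 : HasDerivAt (fun τ : ℝ => τ * Real.log p) (Real.log p) 0 := by
      simpa using (hasDerivAt_id (0 : ℝ)).mul_const (Real.log p)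
    have := e1.sin
    simpa using this
  have h6 := ((((h5.const_mul (2 * (p : ℝ)⁻¹)).const_add 1).add_const (((p : ℝ)⁻¹) ^ 2)).const_mul
    (dens q ^ 2)).sub (h2.mul_const (1 + ((p : ℝ)⁻¹) ^ 2))
  rw [zero_mul, sub_zero] at h6
  exact h6

/-- `Df` is positive for small positive `τ` -/
lemma Df_pos (q p : ℕ) [NeZero q] (hp : 2 ≤ p) : ∃ δ > 0, ∀ τ : ℝ, 0 < τ → τ < δ → 0 < Df q p τ := by
  have hq : 0 < q := Nat.pos_of_ne_zero (NeZero.ne q)
  have h0 := dens_pos hq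
  have hp' : (1 : ℝ) < p := by exact_mod_cast (by omega : 1 < p)
  have hlog := Real.log_pos hp'
  have hd : 0 < dens q ^ 2 * (2 * (p : ℝ)⁻¹ * Real.log p) := by positivity
  have h1 := Df_deriv q p
  rw [hasDerivAt_iff_tendsto_slope] at h1
  have h2 := h1.eventually (lt_mem_nhds hd)
  rw [eventually_nhdsWithin_iff, Metric.eventually_nhds_iff] at h2
  obtain ⟨δ, hδ, h3⟩ := h2
  refine ⟨δ, hδ, fun τ hτ hτδ => ?_⟩
  have h4 := h3 (y := τ) (by rw [Real.dist_eq, sub_zero, abs_of_pos hτ]; exact hτδ)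
    (by simpa using hτ.ne')
  rw [slope_def_field, Df_zero, sub_zero, sub_zero] at h4
  exact (div_pos_iff_of_pos_right hτ).1 h4

/-- comparison of the two main terms -/
lemma main_lt {q p : ℕ} [NeZero q] (hp : 2 ≤ p) : ∃ δ > 0, ∀ τ : ℝ, 0 < τ → τ < δ →
    ‖LFunctionTrivChar q (1 + Complex.I * τ) *
      (1 - (-Complex.I) * (p : ℂ) ^ (-(1 + Complex.I * (τ : ℂ))))⁻¹‖ <
    ‖(dens q : ℂ) / ((1 + Complex.I * τ) - 1) * (1 - (-Complex.I) / (p : ℂ))⁻¹‖ := by
  obtain ⟨δ, hδ, h⟩ := Df_pos q p hp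
  refine ⟨δ, hδ, fun τ hτ hτδ => ?_⟩
  have hD := h τ hτ hτδ
  have hp0 : (p : ℂ) ≠ 0 := by
    have : p ≠ 0 := by omega
    exact_mod_cast this
  have hpr : (0 : ℝ) < p := by
    have : 0 < p := by omega
    exact_mod_cast this
  have hq : 0 < q := Nat.pos_of_ne_zero (NeZero.ne q)
  have h0 := dens_pos hq
  set s : ℂ := 1 + Complex.I * τ with hs
  have hτC : (Complex.I * (τ : ℂ)) ≠ 0 := mul_ne_zero Complex.I_ne_zero (by exact_mod_cast hτ.ne')
  have hs1 : s ≠ 1 := by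
    intro h'
    apply hτC
    rw [hs] at h'
    linear_combination h'
  have hF := F₁_ne (q := q) hs1
  have hs1' : s - 1 = Complex.I * τ := by rw [hs]; ring
  -- the two norms
  have hx : ‖1 - (-Complex.I) / (p : ℂ)‖ ^ 2 = 1 + ((p : ℝ)⁻¹) ^ 2 := by
    have e : 1 - (-Complex.I) / (p : ℂ) = ((1 : ℝ) : ℂ) + (((p : ℝ)⁻¹ : ℝ) : ℂ) * Complex.I := by
      push_cast
      field_simp
      ring
    rw [e, ← Complex.normSq_eq_norm_sq, Complex.normSq_add_mul_I]
    ring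
  have hy : ‖1 - (-Complex.I) * (p : ℂ) ^ (-s)‖ ^ 2 =
      1 + 2 * (p : ℝ)⁻¹ * Real.sin (τ * Real.log p) + ((p : ℝ)⁻¹) ^ 2 := by
    have e1 : (p : ℂ) ^ (-s) = ((p : ℝ)⁻¹ : ℝ) * Complex.exp (((-(τ * Real.log p) : ℝ) : ℂ) * Complex.I) := by
      rw [hs, neg_add, Complex.cpow_add _ _ hp0, Complex.cpow_neg_one,
        Complex.cpow_def_of_ne_zero hp0, ← Complex.natCast_log]
      push_cast
      congr 2
      ring
    have e2 : 1 - (-Complex.I) * (p : ℂ) ^ (-s) =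
        ((1 + (p : ℝ)⁻¹ * Real.sin (τ * Real.log p) : ℝ) : ℂ) +
        (((p : ℝ)⁻¹ * Real.cos (τ * Real.log p) : ℝ) : ℂ) * Complex.I := by
      rw [e1, Complex.exp_mul_I, ← Complex.ofReal_cos, ← Complex.ofReal_sin, Real.cos_neg,
        Real.sin_neg]
      push_cast
      linear_combination (-((p : ℂ)⁻¹) * Complex.sin (↑τ * Complex.log ↑p)) * Complex.I_sq
    rw [e2, ← Complex.normSq_eq_norm_sq, Complex.normSq_add_mul_I]
    have := Real.sin_sq_add_cos_sq (τ * Real.log p)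
    nlinarith [this]
  have hX : 0 < ‖1 - (-Complex.I) / (p : ℂ)‖ := by
    by_contra hcon
    have h1 : ‖1 - (-Complex.I) / (p : ℂ)‖ = 0 := le_antisymm (not_lt.1 hcon) (norm_nonneg _)
    rw [h1] at hx
    have : (0 : ℝ) < 1 + ((p : ℝ)⁻¹) ^ 2 := by positivity
    rw [← hx] at this
    norm_num at this
  have hkey : ‖F₁ q s‖ * ‖1 - (-Complex.I) / (p : ℂ)‖ <
      dens q * ‖1 - (-Complex.I) * (p : ℂ) ^ (-s)‖ := by
    apply lt_of_pow_lt_pow_left₀ 2 (by positivity)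
    rw [mul_pow, mul_pow, hx, hy]
    unfold Df at hD
    rw [← hs] at hD
    linarith
  have hY : 0 < ‖1 - (-Complex.I) * (p : ℂ) ^ (-s)‖ := by
    by_contra hcon
    have h1 : ‖1 - (-Complex.I) * (p : ℂ) ^ (-s)‖ = 0 :=
      le_antisymm (not_lt.1 hcon) (norm_nonneg _)
    rw [h1, mul_zero] at hkey
    have : 0 ≤ ‖F₁ q s‖ * ‖1 - (-Complex.I) / (p : ℂ)‖ := by positivity
    linarith
  have hL : ‖LFunctionTrivChar q s‖ = ‖F₁ q s‖ / τ := by
    rw [hF, hs1', norm_mul, norm_mul, Complex.norm_I, Complex.norm_real,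
      Real.norm_of_nonneg hτ.le]
    field_simp
  rw [norm_mul, norm_mul, norm_inv, norm_inv, norm_div, hL, hs1', norm_mul, Complex.norm_I,
    Complex.norm_real, Complex.norm_real, Real.norm_of_nonneg hτ.le, Real.norm_of_nonneg h0.le,
    one_mul]
  rw [← div_eq_mul_inv, ← div_eq_mul_inv, div_div, div_div, div_lt_div_iff₀ (by positivity)
    (by positivity)]
  have := mul_lt_mul_of_pos_left hkey hτ
  nlinarith [this]

end

end Q239.PS
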