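import Mathlib
import Pool.Agent.Q239.PS.Asym
import Pool.Agent.Q239.PS.RealPart

set_option autoImplicit false

/-!
# The limit of the twisted partial sums
-/

namespace Q239.PS

open Filter Topology Set DirichletCharacter

noncomputable section

lemma tendsto_geom {ι : Type*} {l : Filter ι} {J : ι → ℕ} {r : ι → ℂ} {r₀ : ℂ}
    (hJ : Tendsto J l atTop) (hr : Tendsto r l (𝓝 r₀)) (hb : ∀ᶠ y in l, ‖r y‖ ≤ 1 / 2)
    (hr0 : r₀ ≠ 1) :
    Tendsto (fun y => ∑ i ∈ Finset.range (J y + 1), r y ^ i) l (𝓝 (1 - r₀)⁻¹) := by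
  have h1 : Tendsto (fun y => r y ^ (J y + 1)) l (𝓝 0) := by
    rw [tendsto_zero_iff_norm_tendsto_zero]
    have h2 : Tendsto (fun y => (1 / 2 : ℝ) ^ (J y + 1)) l (𝓝 0) :=
      (tendsto_pow_atTop_nhds_zero_of_lt_one (by norm_num) (by norm_num)).comp
        ((tendsto_add_atTop_nat 1).comp hJ)
    refine squeeze_zero' (Eventually.of_forall fun _ => norm_nonneg _) ?_ h2
    filter_upwards [hb] with y hy
    rw [norm_pow]
    exact pow_le_pow_left₀ (norm_nonneg _) hy _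
  have h3 : Tendsto (fun y => (r y ^ (J y + 1) - 1) / (r y - 1)) l (𝓝 ((0 - 1) / (r₀ - 1))) :=
    (h1.sub_const 1).div (hr.sub_const 1) (sub_ne_zero.2 hr0)
  have h4 : (0 - 1) / (r₀ - 1) = (1 - r₀)⁻¹ := by
    have : r₀ - 1 ≠ 0 := sub_ne_zero.2 hr0
    have h5 : (1 : ℂ) - r₀ ≠ 0 := sub_ne_zero.2 hr0.symm
    field_simp
    ring
  rw [h4] at h3
  refine h3.congr' ?_
  filter_upwards [hb] with y hy
  rw [geom_sum_eq]
  intro h
  rw [h, norm_one] at hy
  norm_num at hy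

lemma tendsto_U {k p : ℕ} [NeZero (k * p)] (hp : p.Prime) (hpk : ¬ p ∣ k) {b : ℂ} (hb : ‖b‖ = 1)
    {ι : Type*} {l : Filter ι} {J : ι → ℕ} {s : ι → ℂ} {s₀ E₀ : ℂ}
    (hJ : Tendsto J l atTop) (hs : Tendsto s l (𝓝 s₀)) (hs1 : ∀ᶠ y in l, 1 < (s y).re)
    (hs0 : 1 ≤ s₀.re) (hs0' : s₀ ≠ 1)
    (hE : Tendsto (fun y => ((p : ℂ) ^ (1 - s y)) ^ J y) l (𝓝 E₀)) :
    Tendsto (fun y => U k p b (p ^ J y) (s y)) l
      (𝓝 (LFunctionTrivChar (k * p) s₀ * (1 - b * (p : ℂ) ^ (-s₀))⁻¹ -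
        (dens (k * p) : ℂ) / (s₀ - 1) * E₀ * (1 - b / p)⁻¹)) := by
  have hp0 : (p : ℂ) ≠ 0 := by exact_mod_cast hp.ne_zero
  have hp2 : (2 : ℝ) ≤ p := by exact_mod_cast hp.two_le
  have hnorm : ∀ z : ℂ, 1 ≤ z.re → ‖b * (p : ℂ) ^ (-z)‖ ≤ 1 / 2 := by
    intro z hz
    rw [norm_mul, hb, one_mul, Complex.norm_natCast_cpow_of_pos hp.pos]
    calc (p : ℝ) ^ ((-z).re) ≤ (p : ℝ) ^ (-1 : ℝ) := by
          apply Real.rpow_le_rpow_of_exponent_le (by linarith)
          simp; linarith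
      _ = ((p : ℝ))⁻¹ := Real.rpow_neg_one _
      _ ≤ 2⁻¹ := inv_anti₀ (by norm_num) hp2
      _ = 1 / 2 := by norm_num
  have hr : Tendsto (fun y => b * (p : ℂ) ^ (-s y)) l (𝓝 (b * (p : ℂ) ^ (-s₀))) := by
    have : Tendsto (fun y => (p : ℂ) ^ (-s y)) l (𝓝 ((p : ℂ) ^ (-s₀))) :=
      hs.neg.const_cpow (Or.inl hp0)
    exact this.const_mul b
  have hg1 := tendsto_geom hJ hr (by
    filter_upwards [hs1] with y hy
    exact hnorm _ hy.le) (by
      intro h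
      have := hnorm s₀ hs0
      rw [h, norm_one] at this
      norm_num at this)
  have hbp : ‖b / (p : ℂ)‖ ≤ 1 / 2 := by
    rw [norm_div, hb, Complex.norm_natCast]
    rw [div_le_div_iff_of_pos_left one_pos (by linarith) (by norm_num)]
    exact hp2
  have hg2 := tendsto_geom (r := fun _ => b / (p : ℂ)) hJ tendsto_const_nhds
    (Eventually.of_forall fun _ => hbp) (by
      intro h
      rw [h, norm_one] at hbp
      norm_num at hbp)
  have hΛ : Tendsto (fun y => LFunctionTrivChar (k * p) (s y)) l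
      (𝓝 (LFunctionTrivChar (k * p) s₀)) := by
    have hc : ContinuousAt (LFunctionTrivChar (k * p)) s₀ :=
      (differentiableAt_LFunction _ s₀ (Or.inl hs0')).continuousAt
    exact hc.tendsto.comp hs
  have hmain : Tendsto (fun y => LFunctionTrivChar (k * p) (s y) *
      ∑ i ∈ Finset.range (J y + 1), (b * (p : ℂ) ^ (-s y)) ^ i -
      (dens (k * p) : ℂ) / (s y - 1) * ((p : ℂ) ^ (1 - s y)) ^ J y *
        ∑ i ∈ Finset.range (J y + 1), (b / p) ^ i) l
      (𝓝 (LFunctionTrivChar (k * p) s₀ * (1 - b * (p : ℂ) ^ (-s₀))⁻¹ -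
        (dens (k * p) : ℂ) / (s₀ - 1) * E₀ * (1 - b / p)⁻¹)) := by
    refine (hΛ.mul hg1).sub ((Tendsto.mul ?_ hE).mul hg2)
    exact tendsto_const_nhds.div (hs.sub_const 1) (sub_ne_zero.2 hs0')
  have herr : Tendsto (fun y => ‖s y‖ * ((k * p : ℕ) + 1) * ((J y + 1) * (1 / 2 : ℝ) ^ J y)) l
      (𝓝 0) := by
    have h1 : Tendsto (fun n : ℕ => ((n : ℝ) + 1) * (1 / 2 : ℝ) ^ n) atTop (𝓝 0) := by
      have e1 := tendsto_self_mul_const_pow_of_lt_one (r := (1 / 2 : ℝ)) (by norm_num) (by norm_num)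
      have e2 := tendsto_pow_atTop_nhds_zero_of_lt_one (r := (1 / 2 : ℝ)) (by norm_num)
        (by norm_num)
      have := e1.add e2
      rw [add_zero] at this
      refine this.congr fun n => ?_
      ring
    have h2 := (hs.norm.mul_const (((k * p : ℕ) : ℝ) + 1)).mul (h1.comp hJ)
    rw [mul_zero] at h2
    exact h2
  have h3 : Tendsto (fun y => U k p b (p ^ J y) (s y) - (LFunctionTrivChar (k * p) (s y) *
      ∑ i ∈ Finset.range (J y + 1), (b * (p : ℂ) ^ (-s y)) ^ i -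
      (dens (k * p) : ℂ) / (s y - 1) * ((p : ℂ) ^ (1 - s y)) ^ J y *
        ∑ i ∈ Finset.range (J y + 1), (b / p) ^ i)) l (𝓝 0) := by
    rw [tendsto_zero_iff_norm_tendsto_zero]
    refine squeeze_zero' (Eventually.of_forall fun _ => norm_nonneg _) ?_ herr
    filter_upwards [hs1] with y hy
    exact U_eq hp hpk hb (J y) hy
  have h4 := h3.add hmain
  rw [zero_add] at h4
  refine h4.congr fun y => ?_
  ring

end

end Q239.PS
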