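import Mathlib
import Pool.Agent.Q239.PS.Lim
import Pool.Agent.Q239.PS.Kro
import Pool.Agent.Helper114.RMT

set_option autoImplicit false

/-!
# Partial sums of every Dirichlet `L`-series vanish somewhere in `Re s > 1`
-/

namespace Q239.PS

open Filter Topology Set DirichletCharacter

noncomputable section

/-- `S_N(s,χ) = ∑_{n ≤ N} χ(n) n^{-s}` -/
def S {k : ℕ} (χ : DirichletCharacter ℂ k) (N : ℕ) (s : ℂ) : ℂ :=
  ∑ n ∈ Finset.Icc 1 N, χ n * (n : ℂ) ^ (-s)

lemma exists_shift {k p : ℕ} (χ : DirichletCharacter ℂ k) {b : ℂ} (hb : ‖b‖ = 1) (N : ℕ) {ε : ℝ}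
    (hε : 0 < ε) : ∃ t : ℝ, ∀ n ∈ Finset.Icc 1 N,
      ‖χ n * (n : ℂ) ^ (-(t * Complex.I)) - tw k p b n‖ ≤ ε := by
  obtain ⟨T, hT⟩ := exists_shifts χ (tw k p b) (tw_one k p b) (tw_mul k p b)
    (fun r hr h => tw_prime hb hr h) (fun r hr h => tw_dvd hr h)
  have h1 : ∀ᶠ j in atTop, ∀ n ∈ Finset.Icc 1 N,
      ‖χ n * (n : ℂ) ^ (-(T j * Complex.I)) - tw k p b n‖ ≤ ε := by
    rw [Filter.eventually_all_finset]
    intro n hn
    have hn0 : n ≠ 0 := by
      rw [Finset.mem_Icc] at hn; omega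
    have h2 := (tendsto_iff_norm_sub_tendsto_zero.1 (hT n hn0))
    exact h2.eventually_le_const hε
  obtain ⟨j, hj⟩ := h1.exists
  exact ⟨T j, hj⟩

lemma S_sub_U {k p : ℕ} (χ : DirichletCharacter ℂ k) {b : ℂ} {N : ℕ} {ε : ℝ} {t : ℝ}
    (ht : ∀ n ∈ Finset.Icc 1 N, ‖χ n * (n : ℂ) ^ (-(t * Complex.I)) - tw k p b n‖ ≤ ε)
    (hε : 0 ≤ ε) {s : ℂ} (hs : 0 ≤ s.re) :
    ‖S χ N (s + t * Complex.I) - U k p b N s‖ ≤ N * ε := by
  unfold S U
  rw [← Finset.sum_sub_distrib]
  refine (norm_sum_le _ _).trans ?_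
  have h1 : ∀ n ∈ Finset.Icc 1 N, ‖χ n * (n : ℂ) ^ (-(s + t * Complex.I)) -
      tw k p b n * (n : ℂ) ^ (-s)‖ ≤ ε := by
    intro n hn
    have hn1 : 1 ≤ n := (Finset.mem_Icc.1 hn).1
    have hn0 : (n : ℂ) ≠ 0 := by
      have : n ≠ 0 := by omega
      exact_mod_cast this
    have h2 : χ n * (n : ℂ) ^ (-(s + t * Complex.I)) - tw k p b n * (n : ℂ) ^ (-s) =
        (χ n * (n : ℂ) ^ (-(t * Complex.I)) - tw k p b n) * (n : ℂ) ^ (-s) := by
      rw [neg_add, Complex.cpow_add _ _ hn0]
      ring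
    rw [h2, norm_mul]
    have h3 : ‖(n : ℂ) ^ (-s)‖ ≤ 1 := by
      rw [Complex.norm_natCast_cpow_of_pos (by omega)]
      apply Real.rpow_le_one_of_one_le_of_nonpos (by exact_mod_cast hn1)
      simpa using hs
    calc _ ≤ ε * 1 := mul_le_mul (ht n hn) h3 (norm_nonneg _) hε
      _ = ε := mul_one ε
  refine (Finset.sum_le_sum h1).trans ?_
  simp

theorem exists_zero {k : ℕ} [NeZero k] (χ : DirichletCharacter ℂ k) (N₀ : ℕ) :
    ∃ N ≥ N₀, ∃ s : ℂ, 1 < s.re ∧ S χ N s = 0 := by
  by_contra hcon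
  push Not at hcon
  have hk : 0 < k := Nat.pos_of_ne_zero (NeZero.ne k)
  obtain ⟨p, hpk', hp⟩ := Nat.exists_infinite_primes (k + 1)
  have hpk : ¬ p ∣ k := fun h => by
    have := Nat.le_of_dvd hk h
    omega
  have : NeZero (k * p) := ⟨Nat.mul_ne_zero hk.ne' hp.ne_zero⟩
  have hp0 : (p : ℂ) ≠ 0 := by exact_mod_cast hp.ne_zero
  have hlog : 0 < Real.log p := Real.log_pos (by exact_mod_cast hp.one_lt)
  have hpi := Real.pi_pos
  set b : ℂ := -Complex.I with hbdef
  have hb : ‖b‖ = 1 := by rw [hbdef, norm_neg, Complex.norm_I]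
  obtain ⟨δ, hδ, hlt⟩ := main_lt (q := k * p) (p := p) hp.two_le
  obtain ⟨L, hL⟩ := exists_nat_gt (2 * Real.pi / (δ * Real.log p))
  have hL0 : (0 : ℝ) < L := lt_of_le_of_lt (by positivity) hL
  have hL0' : 0 < L := by exact_mod_cast hL0
  set τ : ℝ := 2 * Real.pi / (L * Real.log p) with hτdef
  have hτ : 0 < τ := by positivity
  have hτδ : τ < δ := by
    rw [hτdef, div_lt_iff₀ (by positivity)]
    rw [div_lt_iff₀ (by positivity)] at hL
    linarith
  have hAB := hlt τ hτ hτδ
  set s₀ : ℂ := 1 + Complex.I * τ with hs₀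
  have hs₀re : s₀.re = 1 := by rw [hs₀]; simp
  have hs₀1 : s₀ ≠ 1 := by
    intro h
    have : s₀.im = 0 := by rw [h]; simp
    rw [hs₀] at this
    simp at this
    exact hτ.ne' this
  rw [← hbdef] at hAB
  set A : ℂ := LFunctionTrivChar (k * p) s₀ * (1 - b * (p : ℂ) ^ (-s₀))⁻¹ with hA
  set B : ℂ := (dens (k * p) : ℂ) / (s₀ - 1) * (1 - b / p)⁻¹ with hB
  have hA0 : A ≠ 0 := by
    apply mul_ne_zero
    · exact LFunction_ne_zero_of_one_le_re 1 (Or.inr hs₀1) hs₀re.ge
    · apply inv_ne_zero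
      intro h
      have h1 : b * (p : ℂ) ^ (-s₀) = 1 := by linear_combination -h
      have h2 : ‖b * (p : ℂ) ^ (-s₀)‖ = (p : ℝ)⁻¹ := by
        rw [norm_mul, hb, one_mul, Complex.norm_natCast_cpow_of_pos hp.pos, Complex.neg_re, hs₀re,
          Real.rpow_neg_one]
      rw [h1, norm_one] at h2
      have h3 : (p : ℝ) = 1 := by rw [← inv_inv (p : ℝ), ← h2, inv_one]
      have h4 : p = 1 := by exact_mod_cast h3
      exact hp.one_lt.ne' h4
  have hB0 : B ≠ 0 := by
    intro h
    rw [h, norm_zero] at hAB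
    exact absurd hAB (not_lt.2 (norm_nonneg _))
  set f : ℂ → ℂ := fun w => A - B * Complex.exp (-w) with hf
  set w₀ : ℂ := Complex.log (B / A) with hw₀
  have hw₀re : 0 < w₀.re := by
    rw [hw₀, Complex.log_re, norm_div]
    apply Real.log_pos
    rw [one_lt_div (norm_pos_iff.2 hA0)]
    exact hAB
  have hfw₀ : f w₀ = 0 := by
    rw [hf]
    simp only
    rw [Complex.exp_neg, hw₀, Complex.exp_log (div_ne_zero hB0 hA0)]
    field_simp
    ring
  -- the sequence
  set J : ℕ → ℕ := fun j => L * (j + N₀ + 1) with hJ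
  have hJpos : ∀ j, 0 < J j := fun j => by simp only [hJ]; positivity
  have hJge : ∀ j, j + N₀ ≤ J j := fun j => by
    simp only [hJ]
    nlinarith
  have hJtop : Tendsto J atTop atTop := by
    refine tendsto_atTop_mono (fun j => (?_ : j ≤ J j)) tendsto_id
    have := hJge j; omega
  choose t ht using fun j : ℕ => exists_shift (p := p) χ hb (p ^ J j)
    (ε := 1 / (((j : ℝ) + 1) * ((p ^ J j : ℕ) : ℝ))) (by
      have : 0 < p ^ J j := Nat.pow_pos hp.pos
      positivity)
  set c : ℕ → ℝ := fun j => (J j : ℝ) * Real.log p with hc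
  have hcpos : ∀ j, 0 < c j := fun j => by
    have := hJpos j
    simp only [hc]
    positivity
  set F : ℕ → ℂ → ℂ := fun j w => S χ (p ^ J j) (s₀ + w / (c j : ℂ) + t j * Complex.I) with hF
  set V : Set ℂ := {w | 0 < w.re} with hV
  have hVo : IsOpen V := isOpen_lt continuous_const Complex.continuous_re
  have hre : ∀ j (w : ℂ), (s₀ + w / (c j : ℂ)).re = 1 + w.re / c j := by
    intro j w
    rw [Complex.add_re, hs₀re, Complex.div_ofReal_re]
  have hFne : ∀ j, ∀ w ∈ V, F j w ≠ 0 := by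
    intro j w hw
    apply hcon
    · have h1 : J j < p ^ J j := Nat.lt_pow_self hp.one_lt
      have := hJge j
      omega
    · rw [Complex.add_re, hre]
      have : 0 < w.re / c j := div_pos hw (hcpos j)
      simp
      exact this
  have hFd : ∀ j, DifferentiableOn ℂ (F j) V := by
    intro j
    apply Differentiable.differentiableOn
    simp only [hF, S]
    apply Differentiable.fun_sum
    intro n hn
    have hn0 : (n : ℂ) ≠ 0 := by
      have : n ≠ 0 := by
        rw [Finset.mem_Icc] at hn; omega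
      exact_mod_cast this
    apply Differentiable.const_mul
    apply Differentiable.const_cpow
    · fun_prop
    · exact Or.inl hn0
  have hfc : Continuous f := by
    rw [hf]; fun_prop
  have hlim : TendstoLocallyUniformlyOn F f atTop V := by
    rw [tendstoLocallyUniformlyOn_iff_forall_tendsto]
    intro w hw
    set l : Filter (ℕ × ℂ) := atTop ×ˢ 𝓝[V] w with hl
    have hfst : Tendsto (fun y : ℕ × ℂ => y.1) l atTop := tendsto_fst
    have hsnd : Tendsto (fun y : ℕ × ℂ => y.2) l (𝓝 w) :=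
      tendsto_snd.mono_right nhdsWithin_le_nhds
    have hsndV : ∀ᶠ y : ℕ × ℂ in l, y.2 ∈ V :=
      tendsto_snd.eventually (eventually_mem_nhdsWithin)
    have hf2 : Tendsto (fun y : ℕ × ℂ => f y.2) l (𝓝 (f w)) :=
      (hfc.tendsto w).comp hsnd
    have hF2 : Tendsto (fun y : ℕ × ℂ => F y.1 y.2) l (𝓝 (f w)) := by
      have hctop : Tendsto (fun y : ℕ × ℂ => c y.1) l atTop := by
        have : Tendsto c atTop atTop := by
          simp only [hc]
          exact (tendsto_natCast_atTop_atTop.comp hJtop).atTop_mul_const hlog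
        exact this.comp hfst
      have hcinv : Tendsto (fun y : ℕ × ℂ => ((c y.1 : ℝ) : ℂ)⁻¹) l (𝓝 0) := by
        have := (Complex.continuous_ofReal.tendsto 0).comp (tendsto_inv_atTop_zero.comp hctop)
        simpa [Function.comp_def] using this
      have hs : Tendsto (fun y : ℕ × ℂ => s₀ + y.2 / (c y.1 : ℂ)) l (𝓝 s₀) := by
        have := (hsnd.mul hcinv).const_add s₀
        rw [mul_zero, add_zero] at this
        exact this
      have hU := tendsto_U (k := k) (p := p) hp hpk hb (l := l) (J := fun y => J y.1)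
        (s := fun y : ℕ × ℂ => s₀ + y.2 / (c y.1 : ℂ)) (s₀ := s₀) (E₀ := Complex.exp (-w))
        (hJtop.comp hfst) hs (by
          filter_upwards [hsndV] with y hy
          rw [hre]
          have : 0 < y.2.re / c y.1 := div_pos hy (hcpos _)
          linarith) hs₀re.ge hs₀1 (by
          have h1 : Tendsto (fun y : ℕ × ℂ => Complex.exp (-y.2)) l (𝓝 (Complex.exp (-w))) :=
            (Complex.continuous_exp.tendsto _).comp hsnd.neg
          refine h1.congr fun y => ?_
          rw [Complex.cpow_def_of_ne_zero hp0, ← Complex.exp_nat_mul, ← Complex.natCast_log]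
          have hcC : (c y.1 : ℂ) ≠ 0 := by exact_mod_cast (hcpos y.1).ne'
          have h2 : (J y.1 : ℂ) * ((Real.log p : ℝ) * (1 - (s₀ + y.2 / (c y.1 : ℂ)))) =
              -y.2 + (-((y.1 + N₀ + 1 : ℕ) : ℤ) : ℤ) * (2 * Real.pi * Complex.I) := by
            have h3 : (J y.1 : ℂ) * (Real.log p : ℝ) = (c y.1 : ℂ) := by
              simp only [hc]; push_cast; ring
            have h4 : (c y.1 : ℂ) * (τ : ℂ) = ((y.1 + N₀ + 1 : ℕ) : ℂ) * (2 * Real.pi) := by
              have h5 : c y.1 * τ = ((y.1 + N₀ + 1 : ℕ) : ℝ) * (2 * Real.pi) := by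
                simp only [hc, hτdef, hJ]
                push_cast
                field_simp
              exact_mod_cast congrArg (fun x : ℝ => (x : ℂ)) h5
            rw [← mul_assoc, h3, hs₀]
            have h6 : (c y.1 : ℂ) * (1 - (1 + Complex.I * τ + y.2 / (c y.1 : ℂ))) =
                -y.2 - ((c y.1 : ℂ) * (τ : ℂ)) * Complex.I := by
              field_simp
              ring
            rw [h6, h4]
            push_cast
            ring
          rw [h2, Complex.exp_add, Complex.exp_int_mul_two_pi_mul_I, mul_one])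
      have hlimval : LFunctionTrivChar (k * p) s₀ * (1 - b * (p : ℂ) ^ (-s₀))⁻¹ -
          (dens (k * p) : ℂ) / (s₀ - 1) * Complex.exp (-w) * (1 - b / p)⁻¹ = f w := by
        simp only [hf, hA, hB]
        ring
      rw [hlimval] at hU
      have hdiff : Tendsto (fun y : ℕ × ℂ => F y.1 y.2 -
          U k p b (p ^ J y.1) (s₀ + y.2 / (c y.1 : ℂ))) l (𝓝 0) := by
        rw [tendsto_zero_iff_norm_tendsto_zero]
        have h1 : Tendsto (fun y : ℕ × ℂ => 1 / ((y.1 : ℝ) + 1)) l (𝓝 0) :=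
          tendsto_one_div_add_atTop_nhds_zero_nat.comp hfst
        refine squeeze_zero' (Eventually.of_forall fun _ => norm_nonneg _) ?_ h1
        filter_upwards [hsndV] with y hy
        have hN : (0 : ℝ) < ((p ^ J y.1 : ℕ) : ℝ) := by exact_mod_cast Nat.pow_pos hp.pos
        have h2 := S_sub_U χ (ht y.1) (by positivity) (s := s₀ + y.2 / (c y.1 : ℂ)) (by
          rw [hre]
          have : 0 < y.2.re / c y.1 := div_pos hy (hcpos _)
          linarith)
        refine h2.trans (le_of_eq ?_)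
        field_simp
      have := hdiff.add hU
      rw [zero_add] at this
      refine this.congr fun y => ?_
      ring
    exact (hf2.prodMk_nhds hF2).mono_right (nhds_le_uniformity _)
  have hz := Pool.Agent.Helper114.RMT.hurwitz hVo hFd hlim hFne (a := w₀) hw₀re hfw₀
  have hder : HasDerivAt f (B * Complex.exp (-w₀)) w₀ := by
    have h1 : HasDerivAt (fun w : ℂ => Complex.exp (-w)) (Complex.exp (-w₀) * (-1)) w₀ :=
      (hasDerivAt_neg w₀).cexp
    have h2 := (h1.const_mul B).const_sub A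
    have h3 : B * Complex.exp (-w₀) = -(B * (Complex.exp (-w₀) * (-1))) := by ring
    rw [h3]
    exact h2
  have h0 : HasDerivAt f 0 w₀ := by
    refine (hasDerivAt_const w₀ (0 : ℂ)).congr_of_eventuallyEq ?_
    filter_upwards [hz] with w hw
    exact hw
  have h1 := hder.unique h0
  exact mul_ne_zero hB0 (Complex.exp_ne_zero _) h1

end

end Q239.PS
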